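import Pool.Agent.W873.RT.Stm

/-! Part PR2 of project RT. -/

set_option autoImplicit false

open MeasureTheory ProbabilityTheory Polynomial Filter Topology
open scoped ENNReal NNReal

namespace Pool.Agent.W334.RT.PR2

open Pool.Agent.W873.RS (sc chg npos)
open Pool.Agent.W873.RT

theorem rid {a b c d : ℝ} (ha : 0 < a) (hb : 0 < b) (hc : 0 < c) (hd : 0 < d) (hab : a ≤ b)
    (hcd : c / d ≤ 2) : |a / b - c / d| ≤ 6 * |rho a b - rho c d| := by
  have e : a / b - c / d = (rho a b - rho c d) * ((1 + a / b) * (1 + c / d)) := by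
    unfold rho
    field_simp
    ring
  have h1 : 0 < a / b := div_pos ha hb
  have h2 : 0 < c / d := div_pos hc hd
  have h3 : a / b ≤ 1 := by rw [div_le_one hb]; exact hab
  have h4 : (1 + a / b) * (1 + c / d) ≤ 6 := by nlinarith
  have h5 : 0 < (1 + a / b) * (1 + c / d) := by positivity
  rw [e, abs_mul, abs_of_pos h5, mul_comm 6]
  exact mul_le_mul_of_nonneg_left h4 (abs_nonneg _)

theorem gap {a b c d : ℝ} (ha : 0 < a) (hb : 0 < b) (hc : 0 < c) (hd : 0 < d) (hab : a ≤ b)
    (hcd : 2 < c / d) : 1 ≤ 6 * |rho a b - rho c d| := by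
  have h1 : rho a b ≤ 1 / 2 := by
    unfold rho
    rw [div_le_div_iff₀ (by positivity) (by norm_num)]
    linarith
  have h2 : 2 * d < c := by rwa [lt_div_iff₀ hd] at hcd
  have h3 : 2 / 3 ≤ rho c d := by
    unfold rho
    rw [div_le_div_iff₀ (by norm_num) (by positivity)]
    linarith
  have h4 : rho c d - rho a b ≤ |rho a b - rho c d| := by
    rw [abs_sub_comm]
    exact le_abs_self _
  linarith

theorem main (h : AFF) : Pool.Agent.W873.RT.PR2 := by
  intro s μ _ K M v w hμ hM hv hw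
  rcases Nat.eq_zero_or_pos s with rfl | hs
  · have h0 : {c : Fin 0 → ℝ | sc (∑ i, c i * v i) (∑ i, c i * w i)} = ∅ := by
      ext c
      simp [sc]
    rw [h0]
    simp
  have hne : Nonempty (Fin s) := ⟨⟨0, hs⟩⟩
  obtain ⟨j, hj⟩ := Finite.exists_max v
  have hrow : ∀ i, ENNReal.ofReal |rho (v i) (v j) - rho (w i) (w j)| ≤
      ∑ k, ENNReal.ofReal |rho (v i) (v k) - rho (w i) (w k)| := fun i =>
    Finset.single_le_sum (f := fun k => ENNReal.ofReal |rho (v i) (v k) - rho (w i) (w k)|)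
      (fun _ _ => zero_le) (Finset.mem_univ j)
  have hsum : ∑ i, ENNReal.ofReal |rho (v i) (v j) - rho (w i) (w j)| ≤
      ∑ i, ∑ k, ENNReal.ofReal |rho (v i) (v k) - rho (w i) (w k)| :=
    Finset.sum_le_sum fun i _ => hrow i
  have e6 : (6 : ℝ≥0∞) = ENNReal.ofReal 6 := by norm_num
  by_cases hc : ∀ i, w i / w j ≤ 2
  · refine (h s μ K M v w j hμ hM (hv j) (hw j)).trans ?_
    have h1 : ∀ i, ENNReal.ofReal |v i / v j - w i / w j| ≤
        6 * ENNReal.ofReal |rho (v i) (v j) - rho (w i) (w j)| := by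
      intro i
      rw [e6, ← ENNReal.ofReal_mul (by norm_num)]
      exact ENNReal.ofReal_le_ofReal (rid (hv i) (hv j) (hw i) (hw j) (hj i) (hc i))
    calc (K : ℝ≥0∞) * M * ∑ i, ENNReal.ofReal |v i / v j - w i / w j|
        ≤ K * M * ∑ i, 6 * ENNReal.ofReal |rho (v i) (v j) - rho (w i) (w j)| := by
          gcongr with i _
          exact h1 i
      _ = 6 * (K * M) * ∑ i, ENNReal.ofReal |rho (v i) (v j) - rho (w i) (w j)| := by
          rw [← Finset.mul_sum]
          ring
      _ ≤ 6 * (1 + K * M) * ∑ i, ∑ k, ENNReal.ofReal |rho (v i) (v k) - rho (w i) (w k)| := by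
          gcongr
          exact le_add_self
  · push Not at hc
    obtain ⟨i, hi⟩ := hc
    have h1 := gap (hv i) (hv j) (hw i) (hw j) (hj i) hi
    have h2 : (1 : ℝ≥0∞) ≤ 6 * ENNReal.ofReal |rho (v i) (v j) - rho (w i) (w j)| := by
      rw [e6, ← ENNReal.ofReal_mul (by norm_num), ← ENNReal.ofReal_one]
      exact ENNReal.ofReal_le_ofReal h1
    have h3 : ENNReal.ofReal |rho (v i) (v j) - rho (w i) (w j)| ≤
        ∑ i, ∑ k, ENNReal.ofReal |rho (v i) (v k) - rho (w i) (w k)| :=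
      (hrow i).trans (Finset.single_le_sum
        (f := fun i => ∑ k, ENNReal.ofReal |rho (v i) (v k) - rho (w i) (w k)|)
        (fun _ _ => zero_le) (Finset.mem_univ i))
    calc Measure.pi μ {c | sc (∑ i, c i * v i) (∑ i, c i * w i)} ≤ 1 := prob_le_one
      _ ≤ 6 * ENNReal.ofReal |rho (v i) (v j) - rho (w i) (w j)| := h2
      _ = 6 * 1 * ENNReal.ofReal |rho (v i) (v j) - rho (w i) (w j)| := by rw [mul_one]
      _ ≤ 6 * (1 + K * M) * ∑ i, ∑ k, ENNReal.ofReal |rho (v i) (v k) - rho (w i) (w k)| := by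
          gcongr
          exact le_self_add

end Pool.Agent.W334.RT.PR2
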